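import Pool.Agent.Helper87.VM.Lib2

/-!
Pure powers of vectors of binary forms (`MP_39dd1a_ag`).
-/

set_option autoImplicit false

namespace Pool.Agent.Helper87.VM

open Pool.Agent.Helper48.VMRT

/-- The greatest common divisor of a finite family. -/
theorem fac2_gcd {ι : Type} [Fintype ι] (w : ι → Polynomial ℂ) (i₀ : ι) (h0 : w i₀ ≠ 0) :
    ∃ (g : Polynomial ℂ) (p a : ι → Polynomial ℂ), g ≠ 0 ∧ (∀ i, w i = g * p i) ∧
      ∑ i, a i * p i = 1 := by
  obtain ⟨g, hg⟩ := (IsPrincipalIdealRing.principal (Ideal.span (Set.range w))).principal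
  have hg' : Ideal.span (Set.range w) = Ideal.span {g} := hg
  have hdvd : ∀ i, g ∣ w i := by
    intro i
    rw [← Ideal.mem_span_singleton, ← hg']
    exact Ideal.subset_span ⟨i, rfl⟩
  choose p hp using hdvd
  have hg0 : g ≠ 0 := by
    intro h
    apply h0
    rw [hp i₀, h, zero_mul]
  have hmem : g ∈ Ideal.span (Set.range w) := by
    rw [hg']
    exact Ideal.mem_span_singleton_self g
  obtain ⟨a, ha⟩ := Ideal.mem_span_range_iff_exists_fun.1 hmem
  refine ⟨g, p, a, hg0, hp, ?_⟩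
  apply mul_left_cancel₀ hg0
  rw [mul_one, Finset.mul_sum, ← ha]
  conv_rhs => rw [ha]
  rw [← ha]
  conv_lhs => rw [ha]
  refine Finset.sum_congr rfl fun i _ => ?_
  rw [hp i]
  ring

/-- A finite family without common zero generates the unit ideal. -/
theorem fac2_unit {ι : Type} [Fintype ι] (u : ι → Polynomial ℂ)
    (h : ∀ t : ℂ, ∃ i, (u i).eval t ≠ 0) : ∃ b : ι → Polynomial ℂ, ∑ i, b i * u i = 1 := by
  obtain ⟨i₀, hi₀⟩ := h 0
  have h0 : u i₀ ≠ 0 := by
    intro h1
    rw [h1, Polynomial.eval_zero] at hi₀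
    exact hi₀ rfl
  obtain ⟨g, p, a, hg, hp, ha⟩ := fac2_gcd u i₀ h0
  have hdeg : g.degree = 0 := by
    by_contra hd
    obtain ⟨t, ht⟩ := IsAlgClosed.exists_root g hd
    obtain ⟨i, hi⟩ := h t
    apply hi
    rw [hp i, Polynomial.eval_mul, ht.eq_zero, zero_mul]
  obtain ⟨c, hc⟩ : ∃ c : ℂ, g = Polynomial.C c :=
    ⟨g.coeff 0, Polynomial.eq_C_of_degree_eq_zero hdeg⟩
  have hc0 : c ≠ 0 := by
    intro h1
    apply hg
    rw [hc, h1, Polynomial.C_0]
  refine ⟨fun i => Polynomial.C c⁻¹ * a i, ?_⟩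
  rw [← ha]
  refine Finset.sum_congr rfl fun i _ => ?_
  rw [hp i, hc]
  have h1 : Polynomial.C c⁻¹ * Polynomial.C c = (1 : Polynomial ℂ) := by
    rw [← Polynomial.C_mul, inv_mul_cancel₀ hc0, Polynomial.C_1]
  calc Polynomial.C c⁻¹ * a i * (Polynomial.C c * p i)
      = (Polynomial.C c⁻¹ * Polynomial.C c) * (a i * p i) := by ring
    _ = a i * p i := by rw [h1, one_mul]

theorem st_FAC2 : ST_FAC2 := by
  classical
  intro κ _ r d u hr hM hv
  obtain ⟨m, rfl⟩ : ∃ m, r = m + 1 := ⟨r - 1, by omega⟩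
  have hu1 : ∀ t : ℂ, ∃ v : κ → ℂ, ∀ I, (u I).eval t = ∏ j, v (I j) := by
    intro t
    obtain ⟨v, hv⟩ := hv 1 t
    exact ⟨v, fun I => by rw [← hv I]; exact (hev_one (hM.deg I) t).symm⟩
  have hne1 : ∀ t : ℂ, ∃ I, (u I).eval t ≠ 0 := by
    intro t
    by_contra hcon
    push Not at hcon
    apply hM.ne 1 t (by simp)
    funext I
    have h1 : hevv d u 1 t I = (u I).eval t := hev_one (hM.deg I) t
    rw [h1, hcon I]
    rfl
  -- an index
  obtain ⟨i₀, hi₀⟩ : ∃ i₀ : κ, u (fun _ => i₀) ≠ 0 := by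
    obtain ⟨I, hI⟩ := hne1 0
    obtain ⟨v, hv0⟩ := hu1 0
    rw [hv0 I, Finset.prod_ne_zero_iff] at hI
    refine ⟨I 0, fun h => ?_⟩
    have h1 := hv0 (fun _ => I 0)
    rw [h, Polynomial.eval_zero] at h1
    exact (Finset.prod_ne_zero_iff.2 fun j _ => hI 0 (Finset.mem_univ _)) h1.symm
  let w : κ → Polynomial ℂ := fun i => u (Fin.cons i (fun _ => i₀))
  have hcons : (Fin.cons i₀ (fun _ => i₀) : Fin (m + 1) → κ) = fun _ => i₀ := by
    funext j
    refine Fin.cases ?_ (fun _ => ?_) j <;> simp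
  have hw0 : w i₀ ≠ 0 := by
    show u (Fin.cons i₀ (fun _ => i₀)) ≠ 0
    rw [hcons]
    exact hi₀
  have hid : ∀ I, u I * w i₀ ^ m = ∏ j, w (I j) := by
    intro I
    apply Polynomial.funext
    intro t
    obtain ⟨v, hv0⟩ := hu1 t
    have hwv : ∀ i, (w i).eval t = v i * v i₀ ^ m := by
      intro i
      show (u (Fin.cons i (fun _ => i₀))).eval t = _
      rw [hv0, Fin.prod_univ_succ]
      simp
    rw [Polynomial.eval_mul, Polynomial.eval_pow, Polynomial.eval_prod, hv0 I, hwv i₀]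
    rw [Finset.prod_congr rfl fun j _ => hwv (I j), Finset.prod_mul_distrib, Finset.prod_const,
      Finset.card_univ, Fintype.card_fin]
    ring
  obtain ⟨g, p, a, hg, hp, ha⟩ := fac2_gcd w i₀ hw0
  have hp0 : p i₀ ≠ 0 := by
    intro h
    apply hw0
    rw [hp i₀, h, mul_zero]
  have hid2 : ∀ I, u I * p i₀ ^ m = g * ∏ j, p (I j) := by
    intro I
    have h1 := hid I
    rw [hp i₀, Finset.prod_congr rfl fun j _ => hp (I j), Finset.prod_mul_distrib,
      Finset.prod_const, Finset.card_univ, Fintype.card_fin] at h1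
    apply mul_left_cancel₀ (pow_ne_zero m hg)
    calc g ^ m * (u I * p i₀ ^ m) = u I * (g * p i₀) ^ m := by ring
      _ = g ^ (m + 1) * ∏ j, p (I j) := h1
      _ = g ^ m * (g * ∏ j, p (I j)) := by ring
  obtain ⟨b, hb⟩ := fac2_unit u hne1
  have hA : g = p i₀ ^ m * ∑ I : Fin (m + 1) → κ, (∏ j, a (I j)) * u I := by
    have h1 : (1 : Polynomial ℂ) = ∑ I : Fin (m + 1) → κ, ∏ j, (a (I j) * p (I j)) := by
      rw [← Fintype.sum_pow (fun i => a i * p i) (m + 1), ha, one_pow]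
    calc g = g * 1 := (mul_one g).symm
      _ = ∑ I : Fin (m + 1) → κ, g * ∏ j, (a (I j) * p (I j)) := by rw [h1, Finset.mul_sum]
      _ = ∑ I : Fin (m + 1) → κ, p i₀ ^ m * ((∏ j, a (I j)) * u I) := by
        refine Finset.sum_congr rfl fun I _ => ?_
        rw [Finset.prod_mul_distrib]
        calc g * ((∏ j, a (I j)) * ∏ j, p (I j))
            = (∏ j, a (I j)) * (g * ∏ j, p (I j)) := by ring
          _ = (∏ j, a (I j)) * (u I * p i₀ ^ m) := by rw [hid2 I]
          _ = p i₀ ^ m * ((∏ j, a (I j)) * u I) := by ring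
      _ = _ := by rw [Finset.mul_sum]
  have hB : p i₀ ^ m = g * ∑ I, b I * ∏ j, p (I j) := by
    calc p i₀ ^ m = (∑ I, b I * u I) * p i₀ ^ m := by rw [hb, one_mul]
      _ = ∑ I, b I * (u I * p i₀ ^ m) := by
        rw [Finset.sum_mul]
        exact Finset.sum_congr rfl fun I _ => by ring
      _ = ∑ I, g * (b I * ∏ j, p (I j)) := by
        refine Finset.sum_congr rfl fun I _ => ?_
        rw [hid2 I]
        ring
      _ = _ := by rw [Finset.mul_sum]
  have hU : IsUnit (∑ I : Fin (m + 1) → κ, (∏ j, a (I j)) * u I) := by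
    refine IsUnit.of_mul_eq_one (∑ I, b I * ∏ j, p (I j)) ?_
    apply mul_left_cancel₀ hg
    rw [mul_one]
    calc g * ((∑ I : Fin (m + 1) → κ, (∏ j, a (I j)) * u I) * ∑ I, b I * ∏ j, p (I j))
        = (g * ∑ I, b I * ∏ j, p (I j)) * ∑ I : Fin (m + 1) → κ, (∏ j, a (I j)) * u I := by ring
      _ = p i₀ ^ m * ∑ I : Fin (m + 1) → κ, (∏ j, a (I j)) * u I := by rw [← hB]
      _ = g := hA.symm
  obtain ⟨c, hc, hcU⟩ := Polynomial.isUnit_iff.1 hU
  rw [← hcU] at hA
  have hfin : ∀ I, u I = Polynomial.C c * ∏ j, p (I j) := by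
    intro I
    apply mul_left_cancel₀ (pow_ne_zero m hp0)
    calc p i₀ ^ m * u I = u I * p i₀ ^ m := mul_comm _ _
      _ = g * ∏ j, p (I j) := hid2 I
      _ = p i₀ ^ m * (Polynomial.C c * ∏ j, p (I j)) := by
        conv_lhs => rw [hA]
        ring
  obtain ⟨β, hβ⟩ := IsAlgClosed.exists_pow_nat_eq c (Nat.succ_pos m)
  let q : κ → Polynomial ℂ := fun i => Polynomial.C β * p i
  have hq : ∀ I, u I = ∏ j, q (I j) := by
    intro I
    show u I = ∏ j, (Polynomial.C β * p (I j))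
    rw [Finset.prod_mul_distrib, Finset.prod_const, Finset.card_univ, Fintype.card_fin,
      ← Polynomial.C_pow, hβ]
    exact hfin I
  have : Nonempty κ := ⟨i₀⟩
  obtain ⟨i₁, hi₁⟩ := Finite.exists_max (fun i => (q i).natDegree)
  have hd : d = (m + 1) * (q i₁).natDegree := by
    apply le_antisymm
    · have h1 : ∃ I, (u I).coeff d ≠ 0 := by
        by_contra hcon
        push Not at hcon
        apply hM.ne 0 1 (by simp)
        funext I
        have h2 : hevv d u 0 1 I = (u I).coeff d * 1 ^ d := hev_zero_left d (u I) 1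
        rw [h2, hcon I, zero_mul]
        rfl
      obtain ⟨I, hI⟩ := h1
      refine (Polynomial.le_natDegree_of_ne_zero hI).trans ?_
      rw [hq I]
      refine (natDegree_prod_le' Finset.univ fun j _ => hi₁ (I j)).trans ?_
      rw [Finset.card_univ, Fintype.card_fin, mul_comm]
    · have h1 := hM.deg (fun _ => i₁)
      rw [hq (fun _ => i₁), Finset.prod_const, Finset.card_univ, Fintype.card_fin,
        Polynomial.natDegree_pow] at h1
      exact h1
  refine ⟨(q i₁).natDegree, q, hd, ⟨hi₁, ?_⟩, hq⟩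
  intro s t hst h0
  apply hM.ne s t hst
  funext I
  show hev d (u I) s t = 0
  have h1 : d = (q i₁).natDegree * (Finset.univ : Finset (Fin (m + 1))).card := by
    rw [Finset.card_univ, Fintype.card_fin, mul_comm]
    exact hd
  rw [hq I]
  conv_lhs => rw [h1]
  rw [hev_prod Finset.univ (fun j _ => hi₁ (I j)) s t]
  exact Finset.prod_eq_zero (Finset.mem_univ (0 : Fin (m + 1))) (congrFun h0 (I 0))

end Pool.Agent.Helper87.VM
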